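import Mathlib

/-!
# An irreducible Jordan supermodule over a Kantor double which is not a Kantor double

Let `A = G_1 = F 1 + F e` be the Grassmann Poisson superalgebra on one odd generator, with
`e · e = 0`, `{e, e} = -1`.  It is simple and its Kantor double `Kan(A)` is a simple Jordan
superalgebra of dimension 4.  We exhibit a two-dimensional unital irreducible Jordan supermodule
over `Kan(A)` on which the (even) element `ē` does not act as zero, and show that `ē` acts as zero
on every two-dimensional supermodule of the form `Kan(V)`.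

Superspaces over a field `F` with `2 ≠ 0` are encoded as vector spaces with a linear involution,
the parity operator (`1` on the even part, `-1` on the odd part).
-/

namespace Pool.Agent.Results.MP_ba200f_al.GrassmannOneCounterexample

universe u v w

/-- The sign `(-1)^p` of a parity `p`. -/
def sgn (F : Type u) [Field F] (p : ZMod 2) : F := if p = 0 then 1 else -1

section Definitions

variable {F : Type u} [Field F]

/-- In the superspace `V` with parity operator `par`, the vector `x` is homogeneous of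
parity `p`. -/
def Homog {V : Type v} [AddCommGroup V] [Module F V] (par : V →ₗ[F] V) (p : ZMod 2) (x : V) :
    Prop :=
  par x = sgn F p • x

/-- `(B, mul)` with parity operator `par` is a Jordan superalgebra: the parity operator is an
involution, the product is even and supercommutative, it satisfies the linearised Jordan
superidentity on homogeneous elements, and `(a² b) a = a² (b a)` for `a` even (the last condition
follows from the linearised identity when `3 ≠ 0`). -/
structure IsJordanSuperalgebra {B : Type v} [AddCommGroup B] [Module F B] (par : B →ₗ[F] B)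
    (mul : B →ₗ[F] B →ₗ[F] B) : Prop where
  par_par : ∀ x, par (par x) = x
  mul_even : ∀ x y, par (mul x y) = mul (par x) (par y)
  super_comm : ∀ (p q : ZMod 2) (x y : B), Homog par p x → Homog par q y →
    mul x y = sgn F (p * q) • mul y x
  jordan : ∀ (p q r s : ZMod 2) (a b c y : B), Homog par p a → Homog par q b →
    Homog par r c → Homog par s y →
    sgn F (r * s) • (mul (mul (mul a b) y) c - mul (mul a b) (mul y c)) +
    sgn F (p * (q + r + s)) • (mul (mul (mul b c) y) a - mul (mul b c) (mul y a)) +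
    sgn F (q * (r + s)) • (mul (mul (mul a c) y) b - mul (mul a c) (mul y b)) = 0
  jordan_even : ∀ a b : B, Homog par 0 a →
    mul (mul (mul a a) b) a = mul (mul a a) (mul b a)

/-- The data of a superspace with two bilinear products, the dot product and the bracket. -/
structure DotBracket (F : Type u) [Field F] (A : Type v) [AddCommGroup A] [Module F A] where
  /-- the parity operator -/
  par : A →ₗ[F] A
  /-- the dot product -/
  dot : A →ₗ[F] A →ₗ[F] A
  /-- the bracket -/
  brk : A →ₗ[F] A →ₗ[F] A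

/-- `D` is a dot-bracket superalgebra: both operations are even, the dot product is associative
and supercommutative, the bracket is super-anticommutative. -/
structure IsDotBracketSuperalgebra {A : Type v} [AddCommGroup A] [Module F A]
    (D : DotBracket F A) : Prop where
  par_par : ∀ x, D.par (D.par x) = x
  dot_even : ∀ x y, D.par (D.dot x y) = D.dot (D.par x) (D.par y)
  brk_even : ∀ x y, D.par (D.brk x y) = D.brk (D.par x) (D.par y)
  dot_assoc : ∀ x y z, D.dot (D.dot x y) z = D.dot x (D.dot y z)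
  dot_comm : ∀ (p q : ZMod 2) (x y : A), Homog D.par p x → Homog D.par q y →
    D.dot x y = sgn F (p * q) • D.dot y x
  brk_anticomm : ∀ (p q : ZMod 2) (x y : A), Homog D.par p x → Homog D.par q y →
    D.brk x y = -(sgn F (p * q) • D.brk y x)

/-- The parity operator of the Kantor double: `a + b̄ ↦ par a - (par b)‾`. -/
def kanPar {A : Type v} [AddCommGroup A] [Module F A] (par : A →ₗ[F] A) :
    A × A →ₗ[F] A × A :=
  par.prodMap (-par)

/-- The product of the Kantor double, where the pair `(a, b)` stands for `a + b̄`: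
`(a + b̄) * (c + d̄) = a·c + {b, par d} + (a·d + b·par c)‾`. For homogeneous elements this is
`a * c = a·c`, `a * d̄ = (a·d)‾`, `b̄ * c = (-1)^|c| (b·c)‾`, `b̄ * d̄ = (-1)^|d| {b, d}`. -/
def kanMul {A : Type v} [AddCommGroup A] [Module F A] (D : DotBracket F A) :
    A × A →ₗ[F] A × A →ₗ[F] A × A :=
  LinearMap.mk₂ F (fun x y => (D.dot x.1 y.1 + D.brk x.2 (D.par y.2),
      D.dot x.1 y.2 + D.dot x.2 (D.par y.1)))
    (by intro x x' y; ext <;> simp <;> abel)
    (by intro c x y; ext <;> simp [smul_add])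
    (by intro x y y'; ext <;> simp <;> abel)
    (by intro c x y; ext <;> simp [smul_add])

/-- The bracket of `D` is Jordan: the Kantor double is a Jordan superalgebra. -/
def HasJordanBracket {A : Type v} [AddCommGroup A] [Module F A] (D : DotBracket F A) : Prop :=
  IsJordanSuperalgebra (kanPar D.par) (kanMul D)

/-- `one` is an (even) identity element for the bilinear product `mul`. -/
def IsIdentity {B : Type v} [AddCommGroup B] [Module F B] (par : B →ₗ[F] B)
    (mul : B →ₗ[F] B →ₗ[F] B) (one : B) : Prop :=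
  par one = one ∧ ∀ x, mul one x = x ∧ mul x one = x

/-- `D` is simple: `A ≠ 0` and the only ideals of the dot product (graded or not) which are
closed under bracketing with `A` are `0` and `A`. -/
def IsSimple {A : Type v} [AddCommGroup A] [Module F A] (D : DotBracket F A) : Prop :=
  Nontrivial A ∧ ∀ I : Submodule F A, (∀ x ∈ I, ∀ a, D.dot x a ∈ I ∧ D.dot a x ∈ I) →
    (∀ x ∈ I, ∀ a, D.brk x a ∈ I ∧ D.brk a x ∈ I) → I = ⊥ ∨ I = ⊤

/-- The superalgebra `(B, mul)` is simple: its product is not zero and its only graded two-sided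
ideals are `0` and `B`. -/
def IsSimpleSuperalgebra {B : Type v} [AddCommGroup B] [Module F B] (par : B →ₗ[F] B)
    (mul : B →ₗ[F] B →ₗ[F] B) : Prop :=
  mul ≠ 0 ∧ ∀ I : Submodule F B, (∀ x ∈ I, par x ∈ I) →
    (∀ x ∈ I, ∀ a, mul x a ∈ I ∧ mul a x ∈ I) → I = ⊥ ∨ I = ⊤

/-- The split null extension of a bilinear product on `B` by a left action and a right action
on `V`: `(x + v)(y + w) = x y + (x w + v y)`. -/
def splitMul {B : Type v} [AddCommGroup B] [Module F B] {V : Type w} [AddCommGroup V]
    [Module F V] (mul : B →ₗ[F] B →ₗ[F] B) (l : B →ₗ[F] V →ₗ[F] V) (r : V →ₗ[F] B →ₗ[F] V) :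
    B × V →ₗ[F] B × V →ₗ[F] B × V :=
  LinearMap.mk₂ F (fun x y => (mul x.1 y.1, l x.1 y.2 + r x.2 y.1))
    (by intro x x' y; ext <;> simp; abel)
    (by intro c x y; ext <;> simp [smul_add])
    (by intro x y y'; ext <;> simp; abel)
    (by intro c x y; ext <;> simp [smul_add])

/-- A Jordan supermodule over `(B, mul)`: a superspace `V` with a left and a right action such
that the split null extension is a Jordan superalgebra. -/
def IsJordanSupermodule {B : Type v} [AddCommGroup B] [Module F B] (par : B →ₗ[F] B)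
    (mul : B →ₗ[F] B →ₗ[F] B) {V : Type w} [AddCommGroup V] [Module F V]
    (parV : V →ₗ[F] V) (l : B →ₗ[F] V →ₗ[F] V) (r : V →ₗ[F] B →ₗ[F] V) : Prop :=
  IsJordanSuperalgebra (par.prodMap parV) (splitMul mul l r)

/-- A supermodule is irreducible: it is not zero and its only graded submodules are `0` and the
whole module. -/
def IsIrreducible {B : Type v} [AddCommGroup B] [Module F B] {V : Type w} [AddCommGroup V]
    [Module F V] (parV : V →ₗ[F] V) (l : B →ₗ[F] V →ₗ[F] V) (r : V →ₗ[F] B →ₗ[F] V) : Prop :=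
  Nontrivial V ∧ ∀ N : Submodule F V, (∀ x ∈ N, parV x ∈ N) →
    (∀ x ∈ N, ∀ b, l b x ∈ N ∧ r x b ∈ N) → N = ⊥ ∨ N = ⊤

/-- The data of a dot-bracket supermodule: a superspace `V` with left and right dot products and
brackets with elements of `A`. -/
structure DotBracketModule (F : Type u) [Field F] (A : Type v) [AddCommGroup A] [Module F A]
    (V : Type w) [AddCommGroup V] [Module F V] where
  /-- the parity operator -/
  par : V →ₗ[F] V
  /-- `a · v` -/
  dotL : A →ₗ[F] V →ₗ[F] V
  /-- `v · a` -/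
  dotR : V →ₗ[F] A →ₗ[F] V
  /-- `{a, v}` -/
  brkL : A →ₗ[F] V →ₗ[F] V
  /-- `{v, a}` -/
  brkR : V →ₗ[F] A →ₗ[F] V

/-- The split null extension `A ⊕ V` with `V · V = {V, V} = 0`. -/
def splitDotBracket {A : Type v} [AddCommGroup A] [Module F A] {V : Type w} [AddCommGroup V]
    [Module F V] (D : DotBracket F A) (N : DotBracketModule F A V) : DotBracket F (A × V) where
  par := D.par.prodMap N.par
  dot := splitMul D.dot N.dotL N.dotR
  brk := splitMul D.brk N.brkL N.brkR

/-- `V` is a unital dot-bracket supermodule with a Jordan bracket over the unital dot-bracket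
superalgebra `(D, one)`: the split null extension is a dot-bracket superalgebra with a Jordan
bracket (this forces the left actions to be determined by the right ones through
super(anti)commutativity), and `one` acts as the identity map. -/
def IsJordanDotBracketModule {A : Type v} [AddCommGroup A] [Module F A] {V : Type w}
    [AddCommGroup V] [Module F V] (D : DotBracket F A) (one : A) (N : DotBracketModule F A V) :
    Prop :=
  IsDotBracketSuperalgebra (splitDotBracket D N) ∧ HasJordanBracket (splitDotBracket D N) ∧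
    ∀ v, N.dotL one v = v ∧ N.dotR v one = v

/-- The right action of `Kan(A)` on `Kan(V) = V ⊕ V̄`, given by the formulas of the Kantor double:
`(v + w̄) * (a + b̄) = v·a + {w, par b} + (v·b + w·par a)‾`. -/
def kanRight {A : Type v} [AddCommGroup A] [Module F A] {V : Type w} [AddCommGroup V]
    [Module F V] (D : DotBracket F A) (N : DotBracketModule F A V) :
    V × V →ₗ[F] A × A →ₗ[F] V × V :=
  LinearMap.mk₂ F (fun x y => (N.dotR x.1 y.1 + N.brkR x.2 (D.par y.2),
      N.dotR x.1 y.2 + N.dotR x.2 (D.par y.1)))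
    (by intro x x' y; ext <;> simp <;> abel)
    (by intro c x y; ext <;> simp [smul_add])
    (by intro x y y'; ext <;> simp <;> abel)
    (by intro c x y; ext <;> simp [smul_add])

end Definitions

section Example

variable (F : Type u) [Field F]

/-- The Grassmann Poisson superalgebra `G_1`; the pair `(α, β)` stands for `α + β e`. -/
def grassmann : DotBracket F (F × F) where
  par := LinearMap.id.prodMap (-LinearMap.id)
  dot := LinearMap.mk₂ F (fun x y => (x.1 * y.1, x.1 * y.2 + x.2 * y.1))
    (by intro x x' y; ext <;> simp <;> ring)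
    (by intro c x y; ext <;> simp <;> ring)
    (by intro x y y'; ext <;> simp <;> ring)
    (by intro c x y; ext <;> simp <;> ring)
  brk := LinearMap.mk₂ F (fun x y => (-(x.2 * y.2), 0))
    (by intro x x' y; ext <;> simp; ring)
    (by intro c x y; ext <;> simp; ring)
    (by intro x y y'; ext <;> simp; ring)
    (by intro c x y; ext <;> simp; ring)

/-- The parity operator of the module. -/
def modPar : F × F →ₗ[F] F × F := LinearMap.id.prodMap (-LinearMap.id)

/-- The left action of the Kantor double of `G_1` on the module. -/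
def modL : (F × F) × (F × F) →ₗ[F] F × F →ₗ[F] F × F :=
  LinearMap.mk₂ F (fun x m => (x.1.1 * m.1 + x.2.2 * m.1 + x.1.2 * m.2,
      x.1.1 * m.2 + x.2.1 * m.1))
    (by intro x x' y; ext <;> simp <;> ring)
    (by intro c x y; ext <;> simp <;> ring)
    (by intro x y y'; ext <;> simp <;> ring)
    (by intro c x y; ext <;> simp <;> ring)

/-- The right action of the Kantor double of `G_1` on the module. -/
def modR : F × F →ₗ[F] (F × F) × (F × F) →ₗ[F] F × F :=
  LinearMap.mk₂ F (fun m x => (x.1.1 * m.1 + x.2.2 * m.1 - x.1.2 * m.2,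
      x.1.1 * m.2 + x.2.1 * m.1))
    (by intro x x' y; ext <;> simp <;> ring)
    (by intro c x y; ext <;> simp <;> ring)
    (by intro x y y'; ext <;> simp <;> ring)
    (by intro c x y; ext <;> simp <;> ring)

variable {F}

@[simp] lemma grassmann_par (x : F × F) : (grassmann F).par x = (x.1, -x.2) := rfl
@[simp] lemma grassmann_dot (x y : F × F) :
    (grassmann F).dot x y = (x.1 * y.1, x.1 * y.2 + x.2 * y.1) := rfl
@[simp] lemma grassmann_brk (x y : F × F) : (grassmann F).brk x y = (-(x.2 * y.2), 0) := rfl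
@[simp] lemma modPar_apply (x : F × F) : modPar F x = (x.1, -x.2) := rfl
@[simp] lemma modL_apply (x : (F × F) × (F × F)) (m : F × F) : modL F x m =
    (x.1.1 * m.1 + x.2.2 * m.1 + x.1.2 * m.2, x.1.1 * m.2 + x.2.1 * m.1) := rfl
@[simp] lemma modR_apply (x : (F × F) × (F × F)) (m : F × F) : modR F m x =
    (x.1.1 * m.1 + x.2.2 * m.1 - x.1.2 * m.2, x.1.1 * m.2 + x.2.1 * m.1) := rfl

@[simp] lemma kanPar_apply {A : Type v} [AddCommGroup A] [Module F A] (par : A →ₗ[F] A)
    (x : A × A) : kanPar par x = (par x.1, -par x.2) := rfl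
@[simp] lemma kanMul_apply {A : Type v} [AddCommGroup A] [Module F A] (D : DotBracket F A)
    (x y : A × A) : kanMul D x y = (D.dot x.1 y.1 + D.brk x.2 (D.par y.2),
      D.dot x.1 y.2 + D.dot x.2 (D.par y.1)) := rfl
@[simp] lemma splitMul_apply {B : Type v} [AddCommGroup B] [Module F B] {V : Type w}
    [AddCommGroup V] [Module F V] (mul : B →ₗ[F] B →ₗ[F] B) (l : B →ₗ[F] V →ₗ[F] V)
    (r : V →ₗ[F] B →ₗ[F] V) (x y : B × V) :
    splitMul mul l r x y = (mul x.1 y.1, l x.1 y.2 + r x.2 y.1) := rfl
@[simp] lemma kanRight_apply {A : Type v} [AddCommGroup A] [Module F A] {V : Type w}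
    [AddCommGroup V] [Module F V] (D : DotBracket F A) (N : DotBracketModule F A V)
    (x : V × V) (y : A × A) : kanRight D N x y = (N.dotR x.1 y.1 + N.brkR x.2 (D.par y.2),
      N.dotR x.1 y.2 + N.dotR x.2 (D.par y.1)) := rfl

@[simp] lemma sgn_zero : sgn F 0 = 1 := by simp [sgn]
@[simp] lemma sgn_one : sgn F 1 = -1 := by simp [sgn]

lemma zmod_cases (p : ZMod 2) : p = 0 ∨ p = 1 := by
  revert p; decide

lemma neg_eq_self_iff' (h2 : (2 : F) ≠ 0) {a : F} : -a = a ↔ a = 0 := by
  constructor
  · intro h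
    have : 2 * a = 0 := by linear_combination (-1 : F) * h
    exact (mul_eq_zero.mp this).resolve_left h2
  · rintro rfl; simp

lemma eq_neg_self_iff' (h2 : (2 : F) ≠ 0) {a : F} : a = -a ↔ a = 0 := by
  rw [eq_comm, neg_eq_self_iff' h2]

/-- Homogeneous elements of `G_1` (or of the module). -/
lemma homog_pair (h2 : (2 : F) ≠ 0) {p : ZMod 2} {x : F × F}
    (h : x.1 = sgn F p * x.1) (h' : -x.2 = sgn F p * x.2) :
    (p = 0 ∧ x.2 = 0) ∨ (p = 1 ∧ x.1 = 0) := by
  rcases zmod_cases p with rfl | rfl
  · left; refine ⟨rfl, ?_⟩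
    simp only [sgn_zero, one_mul] at h'
    exact (neg_eq_self_iff' h2).mp h'
  · right; refine ⟨rfl, ?_⟩
    simp only [sgn_one, neg_mul, one_mul] at h
    exact (eq_neg_self_iff' h2).mp h

lemma homog_grassmann (h2 : (2 : F) ≠ 0) {p : ZMod 2} {x : F × F}
    (h : Homog (grassmann F).par p x) :
    (p = 0 ∧ ∃ a, x = (a, 0)) ∨ (p = 1 ∧ ∃ a, x = (0, a)) := by
  have h1 := congrArg Prod.fst h
  have h3 := congrArg Prod.snd h
  simp only [grassmann_par, Prod.smul_fst, Prod.smul_snd, smul_eq_mul] at h1 h3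
  rcases homog_pair h2 h1 h3 with ⟨rfl, hx⟩ | ⟨rfl, hx⟩
  · exact Or.inl ⟨rfl, x.1, Prod.ext rfl hx⟩
  · exact Or.inr ⟨rfl, x.2, Prod.ext hx rfl⟩

lemma homog_kan (h2 : (2 : F) ≠ 0) {p : ZMod 2} {x : (F × F) × (F × F)}
    (h : Homog (kanPar (grassmann F).par) p x) :
    (p = 0 ∧ ∃ a b, x = ((a, 0), (0, b))) ∨ (p = 1 ∧ ∃ a b, x = ((0, a), (b, 0))) := by
  obtain ⟨⟨x1, x2⟩, ⟨y1, y2⟩⟩ := x
  simp only [Homog, kanPar_apply, grassmann_par, Prod.smul_mk, smul_eq_mul, Prod.neg_mk,
    Prod.mk.injEq, neg_neg] at h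
  obtain ⟨⟨h1, h3⟩, h4, h5⟩ := h
  rcases zmod_cases p with rfl | rfl
  · left
    simp only [sgn_zero, one_mul] at h1 h3 h4 h5
    rw [(neg_eq_self_iff' h2).mp h3, (neg_eq_self_iff' h2).mp h4]
    exact ⟨rfl, x1, y2, rfl⟩
  · right
    simp only [sgn_one, neg_mul, one_mul] at h1 h3 h4 h5
    rw [(eq_neg_self_iff' h2).mp h1, (eq_neg_self_iff' h2).mp h5]
    exact ⟨rfl, x2, y1, rfl⟩

lemma homog_ext (h2 : (2 : F) ≠ 0) {p : ZMod 2} {x : ((F × F) × (F × F)) × (F × F)}
    (h : Homog ((kanPar (grassmann F).par).prodMap (modPar F)) p x) :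
    (p = 0 ∧ ∃ a b c, x = (((a, 0), (0, b)), (c, 0))) ∨
      (p = 1 ∧ ∃ a b c, x = (((0, a), (b, 0)), (0, c))) := by
  obtain ⟨x, m⟩ := x
  simp only [Homog, LinearMap.prodMap_apply, Prod.smul_mk, Prod.mk.injEq] at h
  obtain ⟨hx, hm⟩ := h
  have h1 := congrArg Prod.fst hm
  have h3 := congrArg Prod.snd hm
  simp only [modPar_apply, Prod.smul_fst, Prod.smul_snd, smul_eq_mul] at h1 h3
  rcases homog_kan h2 hx with ⟨rfl, a, b, rfl⟩ | ⟨rfl, a, b, rfl⟩
  · rcases homog_pair h2 h1 h3 with ⟨-, hm'⟩ | ⟨h0, -⟩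
    · exact Or.inl ⟨rfl, a, b, m.1, by rw [← hm']⟩
    · exact absurd h0 (by decide)
  · rcases homog_pair h2 h1 h3 with ⟨h0, -⟩ | ⟨-, hm'⟩
    · exact absurd h0 (by decide)
    · exact Or.inr ⟨rfl, a, b, m.2, by rw [← hm']⟩

lemma grassmann_isDotBracket (h2 : (2 : F) ≠ 0) :
    IsDotBracketSuperalgebra (grassmann F) where
  par_par x := by simp
  dot_even x y := by
    ext
    · simp
    · simp only [grassmann_par, grassmann_dot]; ring
  brk_even x y := by ext <;> simp
  dot_assoc x y z := by ext <;> simp <;> ring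
  dot_comm p q x y hx hy := by
    rcases homog_grassmann h2 hx with ⟨rfl, a, rfl⟩ | ⟨rfl, a, rfl⟩ <;>
    rcases homog_grassmann h2 hy with ⟨rfl, b, rfl⟩ | ⟨rfl, b, rfl⟩ <;>
    ext <;> simp [mul_comm]
  brk_anticomm p q x y hx hy := by
    rcases homog_grassmann h2 hx with ⟨rfl, a, rfl⟩ | ⟨rfl, a, rfl⟩ <;>
    rcases homog_grassmann h2 hy with ⟨rfl, b, rfl⟩ | ⟨rfl, b, rfl⟩ <;>
    ext <;> simp [mul_comm]

lemma one_add_one_zmod : (1 : ZMod 2) + 1 = 0 := by decide

set_option maxHeartbeats 4000000 in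
/-- The split null extension of `Kan(G_1)` by the module is a Jordan superalgebra. -/
lemma module_isJordan (h2 : (2 : F) ≠ 0) :
    IsJordanSupermodule (kanPar (grassmann F).par) (kanMul (grassmann F)) (modPar F) (modL F)
      (modR F) where
  par_par x := by simp
  mul_even x y := by
    obtain ⟨⟨⟨x1, x2⟩, ⟨x3, x4⟩⟩, ⟨x5, x6⟩⟩ := x
    obtain ⟨⟨⟨y1, y2⟩, ⟨y3, y4⟩⟩, ⟨y5, y6⟩⟩ := y
    simp only [LinearMap.prodMap_apply, splitMul_apply, kanPar_apply, kanMul_apply,
      grassmann_par, grassmann_dot, grassmann_brk, modPar_apply, modL_apply, modR_apply,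
      Prod.mk_add_mk, Prod.neg_mk, Prod.mk.injEq]
    refine ⟨⟨⟨?_, ?_⟩, ?_, ?_⟩, ?_, ?_⟩ <;> ring
  super_comm p q x y hx hy := by
    rcases homog_ext h2 hx with ⟨rfl, a, b, c, rfl⟩ | ⟨rfl, a, b, c, rfl⟩ <;>
    rcases homog_ext h2 hy with ⟨rfl, a', b', c', rfl⟩ | ⟨rfl, a', b', c', rfl⟩ <;>
    · simp only [splitMul_apply, kanMul_apply,
        grassmann_par, grassmann_dot, grassmann_brk, modL_apply, modR_apply,
        Prod.mk_add_mk, Prod.smul_mk, smul_eq_mul, Prod.mk.injEq, mul_zero, zero_mul, mul_one,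
        sgn_zero, sgn_one]
      refine ⟨⟨⟨?_, ?_⟩, ?_, ?_⟩, ?_, ?_⟩ <;> ring
  jordan p q r s x y z t hx hy hz ht := by
    rcases homog_ext h2 hx with ⟨rfl, a, b, c, rfl⟩ | ⟨rfl, a, b, c, rfl⟩ <;>
    rcases homog_ext h2 hy with ⟨rfl, a', b', c', rfl⟩ | ⟨rfl, a', b', c', rfl⟩ <;>
    rcases homog_ext h2 hz with ⟨rfl, a'', b'', c'', rfl⟩ | ⟨rfl, a'', b'', c'', rfl⟩ <;>
    rcases homog_ext h2 ht with ⟨rfl, a3, b3, c3, rfl⟩ | ⟨rfl, a3, b3, c3, rfl⟩ <;>
    · simp only [splitMul_apply, kanMul_apply,
        grassmann_par, grassmann_dot, grassmann_brk, modL_apply, modR_apply,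
        Prod.mk_add_mk, Prod.smul_mk, smul_eq_mul, mul_zero, zero_mul, mul_one, add_zero, zero_add,
        sgn_zero, sgn_one, one_add_one_zmod, Prod.mk_sub_mk]
      refine Prod.ext (Prod.ext (Prod.ext ?_ ?_) (Prod.ext ?_ ?_)) (Prod.ext ?_ ?_) <;>
      · simp only [Prod.fst_zero, Prod.snd_zero]
        ring
  jordan_even x y hx := by
    rcases homog_ext h2 hx with ⟨-, a, b, c, rfl⟩ | ⟨h, -⟩
    · obtain ⟨⟨⟨y1, y2⟩, ⟨y3, y4⟩⟩, ⟨y5, y6⟩⟩ := y
      simp only [splitMul_apply, kanMul_apply,
        grassmann_par, grassmann_dot, grassmann_brk, modL_apply, modR_apply,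
        Prod.mk_add_mk]
      refine Prod.ext (Prod.ext (Prod.ext ?_ ?_) (Prod.ext ?_ ?_)) (Prod.ext ?_ ?_) <;> ring
    · exact absurd h (by decide)

/-- The base of a split null extension which is a Jordan superalgebra is one. -/
lemma isJordan_of_split {B : Type v} [AddCommGroup B] [Module F B] {par : B →ₗ[F] B}
    {mul : B →ₗ[F] B →ₗ[F] B} {V : Type w} [AddCommGroup V] [Module F V]
    {parV : V →ₗ[F] V} {l : B →ₗ[F] V →ₗ[F] V} {r : V →ₗ[F] B →ₗ[F] V}
    (h : IsJordanSupermodule par mul parV l r) : IsJordanSuperalgebra par mul := by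
  have hom : ∀ (p : ZMod 2) (x : B), Homog par p x →
      Homog (par.prodMap parV) p ((x, 0) : B × V) := by
    intro p x hx
    simp only [Homog, LinearMap.prodMap_apply, map_zero, Prod.smul_mk, smul_zero] at hx ⊢
    rw [hx]
  refine ⟨fun x => ?_, fun x y => ?_, fun p q x y hx hy => ?_, fun p q r s a b c y ha hb hc hy => ?_,
    fun a b ha => ?_⟩
  · simpa using congrArg Prod.fst (h.par_par ((x, 0) : B × V))
  · simpa using congrArg Prod.fst (h.mul_even ((x, 0) : B × V) (y, 0))
  · simpa using congrArg Prod.fst (h.super_comm p q _ _ (hom p x hx) (hom q y hy))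
  · simpa using congrArg Prod.fst
      (h.jordan p q r s _ _ _ _ (hom p a ha) (hom q b hb) (hom r c hc) (hom s y hy))
  · simpa using congrArg Prod.fst (h.jordan_even _ ((b, 0) : B × V) (hom 0 a ha))

lemma grassmann_isSimple : IsSimple (grassmann F) := by
  refine ⟨inferInstance, fun I hI hI' => ?_⟩
  by_cases hbot : I = ⊥
  · exact Or.inl hbot
  right
  obtain ⟨x, hx, hx0⟩ := Submodule.exists_mem_ne_zero_of_ne_bot hbot
  -- first find the identity in `I`
  have key : ((1, 0) : F × F) ∈ I := by
    by_cases h1 : x.1 = 0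
    · have h2 : x.2 ≠ 0 := fun h2 => hx0 (Prod.ext h1 h2)
      have h3 := (hI' x hx (0, -(x.2)⁻¹)).1
      simpa [h2] using h3
    · have h3 := (hI x hx ((x.1)⁻¹, -x.2 * (x.1)⁻¹ * (x.1)⁻¹)).1
      have h4 : x.1 * (-x.2 * (x.1)⁻¹ * (x.1)⁻¹) + x.2 * (x.1)⁻¹ = 0 := by
        field_simp; ring
      rw [grassmann_dot, h4, mul_inv_cancel₀ h1] at h3
      exact h3
  rw [eq_top_iff]
  rintro y -
  have h3 := (hI _ key y).1
  simpa using h3

lemma kan_isSimple : IsSimpleSuperalgebra (kanPar (grassmann F).par) (kanMul (grassmann F)) := by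
  constructor
  · intro h
    have h1 : kanMul (grassmann F) ((1, 0), (0, 0)) ((1, 0), (0, 0)) = 0 := by rw [h]; rfl
    have h2 := congrArg (fun z : (F × F) × (F × F) => z.1.1) h1
    simp at h2
  intro I hpar hI
  by_cases hbot : I = ⊥
  · exact Or.inl hbot
  right
  obtain ⟨x, hx, hx0⟩ := Submodule.exists_mem_ne_zero_of_ne_bot hbot
  obtain ⟨⟨p, q⟩, ⟨r, s⟩⟩ := x
  -- `ē ∈ I` implies `I = ⊤`
  have fin : (((0, 0), (0, 1)) : (F × F) × (F × F)) ∈ I → I = ⊤ := by
    intro h
    have h1 := (hI _ h ((0, 0), (0, 1))).1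
    have h1' : (((1, 0), (0, 0)) : (F × F) × (F × F)) ∈ I := by simpa using h1
    rw [eq_top_iff]
    rintro y -
    have h3 := (hI _ h1' y).1
    have h4 : kanMul (grassmann F) ((1, 0), (0, 0)) y = y := by ext <;> simp
    rwa [h4] at h3
  have smul_mem' : ∀ (c : F) (z : (F × F) × (F × F)), c • z ∈ I → c ≠ 0 → z ∈ I := by
    intro c z hz hc
    have := I.smul_mem c⁻¹ hz
    rwa [smul_smul, inv_mul_cancel₀ hc, one_smul] at this
  by_cases hp : p = 0
  · subst hp
    by_cases hq : q = 0
    · subst hq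
      by_cases hr : r = 0
      · subst hr
        have hs : s ≠ 0 := fun h => hx0 (by rw [h]; rfl)
        refine fin (smul_mem' s _ ?_ hs)
        simpa using hx
      · -- `e * x = r ē`
        have h1 := (hI _ hx ((0, 1), (0, 0))).2
        refine fin (smul_mem' r _ ?_ hr)
        simpa using h1
    · -- `x * 1̄ = q ē + s 0`
      have h1 := (hI _ hx ((0, 0), (1, 0))).1
      refine fin (smul_mem' q _ ?_ hq)
      simpa using h1
  · -- `(x * e) * 1̄ = p ē`
    have h1 := (hI _ (hI _ hx ((0, 1), (0, 0))).1 ((0, 0), (1, 0))).1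
    refine fin (smul_mem' p _ ?_ hp)
    simpa using h1

lemma module_isIrreducible (h2 : (2 : F) ≠ 0) :
    IsIrreducible (modPar F) (modL F) (modR F) := by
  refine ⟨inferInstance, fun N hpar hN => ?_⟩
  by_cases hbot : N = ⊥
  · exact Or.inl hbot
  right
  obtain ⟨x, hx, hx0⟩ := Submodule.exists_mem_ne_zero_of_ne_bot hbot
  obtain ⟨a, b⟩ := x
  have smul_mem' : ∀ (c : F) (z : F × F), c • z ∈ N → c ≠ 0 → z ∈ N := by
    intro c z hz hc
    have := N.smul_mem c⁻¹ hz
    rwa [smul_smul, inv_mul_cancel₀ hc, one_smul] at this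
  have h0 : ((1, 0) : F × F) ∈ N := by
    by_cases ha : a = 0
    · subst ha
      have hb : b ≠ 0 := fun h => hx0 (by rw [h]; rfl)
      have h1 := (hN _ hx ((0, 1), (0, 0))).1
      refine smul_mem' b _ ?_ hb
      simpa using h1
    · have h1 := N.add_mem hx (hpar _ hx)
      refine smul_mem' (2 * a) _ ?_ (mul_ne_zero h2 ha)
      have : (2 * a) • ((1, 0) : F × F) = (a, b) + modPar F (a, b) := by
        ext <;> simp; ring
      rw [this]; exact h1
  have h1 : ((0, 1) : F × F) ∈ N := by
    have h1 := (hN _ h0 ((0, 0), (1, 0))).1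
    simpa using h1
  rw [eq_top_iff]
  rintro y -
  have : y = y.1 • ((1, 0) : F × F) + y.2 • ((0, 1) : F × F) := by ext <;> simp
  rw [this]
  exact N.add_mem (N.smul_mem _ h0) (N.smul_mem _ h1)

/-- On a one-dimensional dot-bracket supermodule over `G_1` the generator `e` acts as zero, for
the dot product and for the bracket. -/
lemma one_dim_act (h2 : (2 : F) ≠ 0) {V : Type w} [AddCommGroup V] [Module F V]
    (hV : Module.finrank F V = 1) (N : DotBracketModule F (F × F) V)
    (hN : IsDotBracketSuperalgebra (splitDotBracket (grassmann F) N)) (x : V) :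
    N.dotR x (0, 1) = 0 ∧ N.brkR x (0, 1) = 0 := by
  obtain ⟨c, hc⟩ : ∃ c : F, ∀ y, N.par y = c • y := by
    obtain ⟨v, hv, hspan⟩ := finrank_eq_one_iff'.mp hV
    obtain ⟨c, hc⟩ := hspan (N.par v)
    refine ⟨c, fun y => ?_⟩
    obtain ⟨d, rfl⟩ := hspan y
    rw [map_smul, ← hc, smul_comm]
  have hpp : ∀ y, N.par (N.par y) = y := fun y => by
    simpa [splitDotBracket] using congrArg Prod.snd (hN.par_par ((0, y) : (F × F) × V))
  have hcc : ∀ y : V, (c * c) • y = y := fun y => by
    have := hpp y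
    rwa [hc, hc, smul_smul] at this
  have aux : ∀ z : V, c • z = -(c • z) → z = 0 := by
    intro z hz
    have h1 : (2 : F) • (c • z) = 0 := by
      rw [two_smul]; nth_rewrite 2 [hz]; simp
    have h3 : c • z = 0 := (smul_eq_zero.mp h1).resolve_left h2
    rw [← hcc z, mul_smul, h3, smul_zero]
  have hneg : ((0, -1) : F × F) = -(0, 1) := by ext <;> simp
  constructor
  · apply aux
    have h1 := congrArg Prod.snd (hN.dot_even ((0, x) : (F × F) × V) ((0, 1), 0))
    simp only [splitDotBracket, splitMul_apply, LinearMap.prodMap_apply, grassmann_par,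
      map_zero, zero_add, hc, hneg, LinearMap.map_neg, map_smul, LinearMap.smul_apply,
      smul_zero, zero_add] at h1
    exact h1
  · apply aux
    have h1 := congrArg Prod.snd (hN.brk_even ((0, x) : (F × F) × V) ((0, 1), 0))
    simp only [splitDotBracket, splitMul_apply, LinearMap.prodMap_apply, grassmann_par,
      map_zero, zero_add, hc, hneg, LinearMap.map_neg, map_smul, LinearMap.smul_apply,
      smul_zero, zero_add] at h1
    exact h1

lemma not_iso (h2 : (2 : F) ≠ 0) {V : Type w} [AddCommGroup V] [Module F V]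
    (N : DotBracketModule F (F × F) V)
    (hN : IsDotBracketSuperalgebra (splitDotBracket (grassmann F) N))
    (φ : (F × F) ≃ₗ[F] (V × V))
    (hφ : ∀ m x, φ (modR F m x) = kanRight (grassmann F) N (φ m) x) : False := by
  have hfin : Module.Finite F (V × V) := Module.Finite.equiv φ
  have hfinV : Module.Finite F V :=
    Module.Finite.of_surjective (LinearMap.fst F V V) LinearMap.fst_surjective
  have hdim : Module.finrank F V = 1 := by
    have h1 := LinearEquiv.finrank_eq φ
    rw [Module.finrank_prod, Module.finrank_prod, Module.finrank_self] at h1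
    omega
  have h1 := hφ (1, 0) ((0, 0), (0, 1))
  have h3 : modR F (1, 0) ((0, 0), (0, 1)) = (1, 0) := by ext <;> simp
  rw [h3, kanRight_apply] at h1
  have hneg : ((0, -1) : F × F) = -(0, 1) := by ext <;> simp
  have hz : ((0, 0) : F × F) = 0 := rfl
  simp only [grassmann_par, neg_zero, hz, hneg, map_zero, LinearMap.map_neg,
    (one_dim_act h2 hdim N hN _).1, (one_dim_act h2 hdim N hN _).2, add_zero] at h1
  have h4 : φ (1, 0) = 0 := by rw [h1]; ext <;> simp
  have h5 := φ.map_eq_zero_iff.mp h4
  have h6 := congrArg Prod.fst h5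
  simp at h6

end Example

/-- **Counterexample to the question.**  Over every field `F` with `2 ≠ 0` there are a simple
unital dot-bracket superalgebra `(D, one)` with a non-zero Jordan bracket, whose Kantor double is a
simple Jordan superalgebra, and a unital irreducible Jordan supermodule `M` over `Kan(A)`, such
that `M` is isomorphic to `Kan(V)` for no unital dot-bracket supermodule `V` with a Jordan bracket
over `A` (irreducible or not, and no linear isomorphism compatible with the right actions exists,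
whether it preserves or reverses parities). -/
theorem result (F : Type u) [Field F] (h2 : (2 : F) ≠ 0) :
    ∃ (A : Type u) (_ : AddCommGroup A) (_ : Module F A) (D : DotBracket F A) (one : A),
      IsDotBracketSuperalgebra D ∧ HasJordanBracket D ∧ IsIdentity D.par D.dot one ∧
      IsIdentity (kanPar D.par) (kanMul D) (one, 0) ∧ IsSimple D ∧ D.brk ≠ 0 ∧
      IsSimpleSuperalgebra (kanPar D.par) (kanMul D) ∧
      ∃ (M : Type u) (_ : AddCommGroup M) (_ : Module F M) (parM : M →ₗ[F] M)
        (l : A × A →ₗ[F] M →ₗ[F] M) (r : M →ₗ[F] A × A →ₗ[F] M),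
        IsJordanSupermodule (kanPar D.par) (kanMul D) parM l r ∧
        (∀ m, l (one, 0) m = m ∧ r m (one, 0) = m) ∧
        IsIrreducible parM l r ∧
        ∀ (V : Type v) (_ : AddCommGroup V) (_ : Module F V) (N : DotBracketModule F A V),
          IsJordanDotBracketModule D one N →
          ¬ ∃ φ : M ≃ₗ[F] V × V, ∀ m x, φ (r m x) = kanRight D N (φ m) x := by
  refine ⟨F × F, inferInstance, inferInstance, grassmann F, (1, 0), grassmann_isDotBracket h2,
    isJordan_of_split (module_isJordan h2), ⟨by simp, fun x => ⟨by simp, by simp⟩⟩,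
    ⟨by ext <;> simp, fun x => ⟨by ext <;> simp, by ext <;> simp⟩⟩, grassmann_isSimple, ?_,
    kan_isSimple, F × F, inferInstance, inferInstance, modPar F, modL F, modR F,
    module_isJordan h2, fun m => ⟨by ext <;> simp, by ext <;> simp⟩, module_isIrreducible h2, ?_⟩
  · intro h
    have h1 : (grassmann F).brk (0, 1) (0, 1) = 0 := by rw [h]; rfl
    have h3 := congrArg Prod.fst h1
    simp at h3
  · rintro V _ _ N hN ⟨φ, hφ⟩
    exact not_iso h2 N hN.1 φ hφ

end Pool.Agent.Results.MP_ba200f_al.GrassmannOneCounterexample
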